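import Pool.Agent.H39.VQ.Targets

set_option autoImplicit false

open Finset Polynomial

namespace Pool.Agent.H54.VQ

open Pool.Agent.H11.CV Pool.Agent.H39.VQ

private theorem ee_zpow (M : ℕ) (a c : ℤ) : ee M (c * a) = (ee M a) ^ c := by
  unfold ee
  rw [← Complex.exp_int_mul]
  congr 1
  push_cast
  ring

private theorem ee_pow (M : ℕ) (a : ℤ) (t : ℕ) : ee M (a * t) = (ee M a) ^ t := by
  rw [mul_comm, ee_zpow, zpow_natCast]

private theorem ft_am (hFT : V_FT) {G : Type} [AddCommGroup G] [Fintype G] (M : ℕ) (u : G)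
    (f : G → ℂ) (χ : AddChar G ℂ) :
    ft (am M u f) χ = ((M : ℂ)⁻¹ * ∑ t ∈ range M, (χ u) ^ t) * ft f χ := by
  obtain ⟨-, -, -, h4, h5, -⟩ := hFT G
  have h1 : ft (am M u f) χ = (M : ℂ)⁻¹ * ft (fun g => ∑ t ∈ range M, f (g + t • u)) χ := by
    unfold ft am
    rw [Finset.mul_sum]
    refine Finset.sum_congr rfl fun g _ => ?_
    ring
  rw [h1, h5 ℕ (range M) (fun t g => f (g + t • u)) χ, mul_assoc]
  congr 1
  rw [Finset.sum_mul]
  refine Finset.sum_congr rfl fun t _ => ?_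
  rw [h4, AddChar.map_nsmul_eq_pow]

private theorem ft_am_ee (hEX : T_EX) (hFT : V_FT) {G : Type} [AddCommGroup G] [Fintype G]
    {p L e : ℕ} (hp : 1 < p) (he : e ≤ L) (u : G) (a : ℤ) (f : G → ℂ) (χ : AddChar G ℂ)
    (hu : χ u = ee (p ^ L) a) :
    ((p : ℤ) ^ e ∣ a → ft (am (p ^ e) (p ^ (L - e) • u) f) χ = ft f χ) ∧
    (¬ (p : ℤ) ^ e ∣ a → ft (am (p ^ e) (p ^ (L - e) • u) f) χ = 0) := by
  obtain ⟨-, -, -, -, -, h6, h7⟩ := hEX
  have hpe : 0 < p ^ e := pow_pos (by omega) _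
  have hpc : ((p ^ e : ℕ) : ℂ) ≠ 0 := by exact_mod_cast hpe.ne'
  have h1 : χ (p ^ (L - e) • u) = ee (p ^ e) a := by
    rw [AddChar.map_nsmul_eq_pow, hu, ← ee_pow]
    have h2 := h6 (p ^ e) (p ^ (L - e)) a (pow_pos (by omega) _)
    rw [← pow_add, Nat.add_sub_cancel' he] at h2
    rw [← h2, mul_comm]
  have h3 := ft_am hFT (p ^ e) (p ^ (L - e) • u) f χ
  rw [h1] at h3
  have h4 : ∑ t ∈ range (p ^ e), (ee (p ^ e) a) ^ t =
      if ((p ^ e : ℕ) : ℤ) ∣ a then ((p ^ e : ℕ) : ℂ) else 0 := by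
    rw [← h7 (p ^ e) a hpe]
    exact Finset.sum_congr rfl fun t _ => (ee_pow _ _ _).symm
  rw [h4] at h3
  have h5 : (((p ^ e : ℕ) : ℤ) ∣ a) ↔ ((p : ℤ) ^ e ∣ a) := by
    rw [Nat.cast_pow]
  constructor
  · intro h
    rw [h3, if_pos (h5.2 h), inv_mul_cancel₀ hpc, one_mul]
  · intro h
    rw [h3, if_neg (fun h' => h (h5.1 h')), mul_zero, zero_mul]

theorem pf_AF (hEX : T_EX) (hFT : V_FT) : V_AF := by
  intro p L j l c x y z G _ _ u0 u1 u2 f χ hp hL hj hl hFr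
  obtain ⟨hx, hy, hz⟩ := hFr
  have hadd := hEX.2.1
  have h1 : χ (u1 - c • u0) = ee (p ^ L) (y - c * x) := by
    rw [sub_eq_add_neg, AddChar.map_add_eq_mul, ← neg_zsmul, AddChar.map_zsmul_eq_zpow, hx, hy,
      ← ee_zpow, ← hadd]
    congr 1
    ring
  have h2 : χ (u2 - (2 * c) • u1 + c ^ 2 • u0) = ee (p ^ L) (z - 2 * c * y + c ^ 2 * x) := by
    rw [AddChar.map_add_eq_mul, sub_eq_add_neg, AddChar.map_add_eq_mul, ← neg_zsmul,
      AddChar.map_zsmul_eq_zpow, AddChar.map_zsmul_eq_zpow, hx, hy, hz, ← ee_zpow, ← ee_zpow,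
      ← hadd, ← hadd]
    congr 1
    ring
  have he0 : ex j l ≤ L := by
    unfold ex
    omega
  have he1 : 2 * j - l ≤ L := by omega
  obtain ⟨a1, a2⟩ := ft_am_ee hEX hFT hp he0 u0 x
    (am (p ^ (2 * j - l)) (p ^ (L - (2 * j - l)) • (u1 - c • u0))
      (am (p ^ (2 * j)) (p ^ (L - 2 * j) • (u2 - (2 * c) • u1 + c ^ 2 • u0)) f)) χ hx
  obtain ⟨b1, b2⟩ := ft_am_ee hEX hFT hp he1 (u1 - c • u0) (y - c * x)
      (am (p ^ (2 * j)) (p ^ (L - 2 * j) • (u2 - (2 * c) • u1 + c ^ 2 • u0)) f) χ h1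
  obtain ⟨c1, c2⟩ := ft_am_ee hEX hFT hp hj (u2 - (2 * c) • u1 + c ^ 2 • u0)
      (z - 2 * c * y + c ^ 2 * x) f χ h2
  unfold AA Us
  constructor
  · rintro ⟨k1, k2, k3⟩
    rw [a1 k1, b1 k2, c1 k3]
  · intro h
    by_cases k1 : (p : ℤ) ^ (ex j l) ∣ x
    · rw [a1 k1]
      by_cases k2 : (p : ℤ) ^ (2 * j - l) ∣ y - c * x
      · rw [b1 k2]
        by_cases k3 : (p : ℤ) ^ (2 * j) ∣ z - 2 * c * y + c ^ 2 * x
        · exact absurd ⟨k1, k2, k3⟩ h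
        · exact c2 k3
      · exact b2 k2
    · exact a2 k1

end Pool.Agent.H54.VQ
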